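import Pool.Agent.W538.CB.Sch

/-! Existence of projective varieties with given homogeneous coordinates (`S_PROJ`). -/

set_option autoImplicit false

open AlgebraicGeometry CategoryTheory HomogeneousLocalization Polynomial Order

namespace Pool.Agent.W538.CB

open Pool.Agent.H187R3 Pool.Agent.W525.CB

lemma ord_one'' {X : Scheme.{0}} [IsIntegral X] [IsLocallyNoetherian X] (y : X) :
    Scheme.ord (1 : X.functionField) y = 0 := by
  have h := Scheme.ord_mul (X := X) (x := y) (f := 1) (g := 1) one_ne_zero one_ne_zero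
  rw [one_mul] at h
  omega

theorem exists_ample (X : Scheme.{0}) [IsIntegral X] [IsLocallyNoetherian X]
    (hc : CompactSpace X) {E : Type} [Field E] (κ : X.functionField →+* E) {I : Type} [Nonempty I]
    (ξ : I → E) (hξ : ∀ i, ξ i ≠ 0) (U : I → X.Opens) (haff : ∀ i, IsAffineOpen (U i))
    (hgen : ∀ i, genericPoint X ∈ U i) (hcov : ∀ x, ∃ i, x ∈ U i)
    (huf : ∀ (i j : I) (x : X), x ∈ U i → ∃ a : X.presheaf.stalk x,
      κ (algebraMap _ X.functionField a) = ξ j / ξ i ∧ (IsUnit a ↔ x ∈ U j)) :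
    ∃ Ea : X → ℤ, IsAmpleDivisor X Ea := by
  classical
  obtain ⟨i0⟩ := ‹Nonempty I›
  have hκ : Function.Injective κ := κ.injective
  have hex : ∀ i j, ∃ t : X.functionField, κ t = ξ j / ξ i := fun i j => by
    obtain ⟨a, ha, -⟩ := huf i j (genericPoint X) (hgen i)
    exact ⟨_, ha⟩
  choose yq kap_yq using hex
  choose ch mem_ch using hcov
  have yq_ne : ∀ i j, yq i j ≠ 0 := by
    intro i j h
    have := kap_yq i j
    rw [h, map_zero] at this
    exact div_ne_zero (hξ j) (hξ i) this.symm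
  have yq_mul : ∀ i j l, yq i j * yq j l = yq i l := by
    intro i j l
    apply hκ
    rw [map_mul, kap_yq, kap_yq, kap_yq]
    have := hξ i
    have := hξ j
    field_simp
  have ord_yq : ∀ i j x, x ∈ U i → x ∈ U j → Scheme.ord (yq i j) x = 0 := by
    intro i j x hi hj
    by_cases hx : coheight x = 1
    · obtain ⟨a, ha, hu⟩ := huf i j x hi
      have haU : IsUnit a := hu.mpr hj
      have h1 : algebraMap _ X.functionField a = yq i j := by
        apply hκ; rw [ha, kap_yq]
      rw [← h1, Scheme.ord_eq_iff hx (by rw [h1]; exact yq_ne i j)]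
      have : Ring.KrullDimLE 1 (X.presheaf.stalk x) := krullDimLE_of_coheight_le hx.le
      exact Ring.ordFrac_of_isUnit haU
    · exact Scheme.ord_eq_zero_of_coheight_neq_one hx _
  have hE : ∀ (i : I) (y : X), y ∈ U i →
      Scheme.ord (yq i i0) y = Scheme.ord (yq (ch y) i0) y := by
    intro i y hy
    rw [← yq_mul i (ch y) i0, Scheme.ord_mul (yq_ne _ _) (yq_ne _ _),
      ord_yq i _ y hy (mem_ch y), zero_add]
  refine ⟨fun y => Scheme.ord (yq (ch y) i0) y, hc, ?_, ?_⟩
  · intro z
    refine ⟨yq (ch z) i0, yq_ne _ _, fun y _ hyz => ?_⟩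
    have hy' : y ∈ U (ch z) := hyz.mem_open (U (ch z)).isOpen (mem_ch z)
    exact hE _ y hy'
  · intro x
    refine ⟨1, one_pos, yq i0 (ch x), yq_ne _ _, U (ch x), haff _, mem_ch x, fun z => ?_⟩
    refine ⟨yq (ch z) i0, ⟨yq_ne _ _, fun y _ hyz => ?_⟩, ?_⟩
    · have hy' : y ∈ U (ch z) := hyz.mem_open (U (ch z)).isOpen (mem_ch z)
      rw [hE _ y hy']
      simp
    · obtain ⟨a, ha, hu⟩ := huf (ch z) (ch x) z (mem_ch z)
      refine ⟨a, ?_, hu⟩
      apply hκ
      rw [ha, map_mul, kap_yq, kap_yq]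
      have := hξ i0
      field_simp

theorem main : S_PROJ := by
  intro k _ _ E _ _ I _ _ ξ hξ
  obtain ⟨i0⟩ := ‹Nonempty I›
  have hI : Nonempty I := ⟨i0⟩
  have hint : IsIntegral (Proj (AG k ξ)) := int_X k ξ i0 (hξ i0)
  obtain ⟨κ, hκ'⟩ := exists_kappa k ξ
  have hκ : KSpec k ξ κ := hκ'
  let φ : CommRingCat.of k ⟶ Γ(Proj (AG k ξ), ⊤) :=
    CommRingCat.ofHom (cst k ξ) ≫ phiE (AG k ξ)
  let f : Proj (AG k ξ) ⟶ Spec (CommRingCat.of k) := (Proj (AG k ξ)).toSpecΓ ≫ Spec.map φ
  have hf : f = Proj.toSpecZero (AG k ξ) ≫ Spec.map (CommRingCat.ofHom (cst k ξ)) := by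
    rw [toSpecZero_eq, Category.assoc, ← Spec.map_comp]
  have hiso : IsIso (CommRingCat.ofHom (cst k ξ)) :=
    (ConcreteCategory.isIso_iff_bijective _).mpr (cst_bijective k ξ)
  have hprop : IsProper f := by
    rw [hf]
    infer_instance
  have hnoeth : IsLocallyNoetherian (Proj (AG k ξ)) :=
    LocallyOfFiniteType.isLocallyNoetherian f
  have hc : CompactSpace (Proj (AG k ξ)) := QuasiCompact.compactSpace_of_compactSpace f
  have hu := unit_iff κ hκ hξ
  have hkm : ∀ c : k, kmap f c = (Proj (AG k ξ)).presheaf.germ ⊤ (genericPoint (Proj (AG k ξ)))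
      trivial ((phiE (AG k ξ)).hom (cst k ξ c)) := by
    intro c
    have h1 : (Scheme.ΓSpecIso (CommRingCat.of k)).inv ≫ f.appTop = φ := appTop_eq φ
    unfold kmap
    rw [h1]
    rfl
  refine ⟨{
    X := Proj (AG k ξ)
    f := f
    integral := hint
    κ := κ
    U := fun i => Proj.basicOpen (AG k ξ) (ys k ξ i)
    noeth := hnoeth
    proper := hprop
    ample := exists_ample (Proj (AG k ξ)) hc κ ξ hξ (fun i => Proj.basicOpen (AG k ξ) (ys k ξ i))
      (fun i => Proj.isAffineOpen_basicOpen (AG k ξ) (ys k ξ i) (ys_mem k ξ i) one_pos)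
      (generic_memE k ξ hξ) (cover_X k ξ) hu
    scal := ?_
    gen := generic_memE k ξ hξ
    affine := fun i => Proj.isAffineOpen_basicOpen (AG k ξ) (ys k ξ i) (ys_mem k ξ i) one_pos
    cover := cover_X k ξ
    sec := sec_eq κ hκ hξ
    unit := ?_ }⟩
  · intro c
    rw [hkm, kap_phiE κ hκ hξ, coe_cst, coeff_monomial, if_pos rfl]
  · intro x i j hx
    obtain ⟨a, ha, hua⟩ := hu i j x hx
    rw [← hua]
    constructor
    · intro h
      obtain ⟨b, hb⟩ := h.exists_left_inv
      refine ⟨b, ?_⟩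
      have h1 := congrArg (fun z => κ (algebraMap _ (Proj (AG k ξ)).functionField z)) hb
      simp only [map_mul, map_one, ha] at h1
      change κ (algebraMap _ (Proj (AG k ξ)).functionField b) = _
      have := hξ i
      have := hξ j
      field_simp at h1 ⊢
      exact h1
    · rintro ⟨b, hb⟩
      have hb' : κ (algebraMap _ (Proj (AG k ξ)).functionField b) = ξ i / ξ j := hb
      refine IsUnit.of_mul_eq_one b ?_
      have hinj : Function.Injective (fun z : (Proj (AG k ξ)).presheaf.stalk x =>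
          κ (algebraMap _ (Proj (AG k ξ)).functionField z)) :=
        κ.injective.comp (IsFractionRing.injective _ _)
      apply hinj
      simp only [map_mul, map_one, ha, hb']
      have := hξ i
      have := hξ j
      field_simp

end Pool.Agent.W538.CB
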