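import Pool.Agent.W538.CB.Ring
import Pool.Agent.H187R3.TaskC

/-! The function field of `Proj` of the graded ring embeds in the field `E`. -/

set_option autoImplicit false

open AlgebraicGeometry CategoryTheory HomogeneousLocalization Polynomial

namespace Pool.Agent.W538.CB

open Pool.Agent.H187R3

/-- The embedding of the function field of `Proj 𝒜` in a field `F` that contains `A`. -/
theorem exists_proj_embedding' {F : Type} [Field F] {A : Type} [CommRing A] (ψ : A →+* F)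
    (hψ : Function.Injective ψ) (𝒜 : ℕ → AddSubgroup A)
    [GradedRing 𝒜] [IsIntegral (Proj 𝒜)] :
    ∃ κ : (Proj 𝒜).functionField →+* F,
      (∀ (m : ℕ) (_ : 0 < m) (f : A) (hf : f ∈ 𝒜 m) (_ : f ≠ 0) (n : ℕ) (s : A)
        (hs : s ∈ 𝒜 (n * m)) (hη : genericPoint (Proj 𝒜) ∈ Proj.basicOpen 𝒜 f),
        κ ((Proj 𝒜).presheaf.germ (Proj.basicOpen 𝒜 f) (genericPoint (Proj 𝒜)) hη
          (Proj.awayToSection 𝒜 f (Away.mk 𝒜 hf n s hs))) = ψ s / ψ f ^ n) ∧
      ∀ z : (Proj 𝒜).functionField, ∃ (d : ℕ) (a b : A), a ∈ 𝒜 d ∧ b ∈ 𝒜 d ∧ b ≠ 0 ∧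
        κ z = ψ a / ψ b := by
  let η : ProjectiveSpectrum 𝒜 := genericPoint (Proj 𝒜)
  let P := η.asHomogeneousIdeal.toIdeal
  have hu : ∀ y : P.primeCompl, IsUnit (ψ (y : A)) := by
    intro y
    have hy : (y : A) ≠ 0 := fun h0 => y.2 (h0 ▸ zero_mem _)
    have : ψ (y : A) ≠ 0 := by
      intro h0
      exact hy (hψ (by rw [h0, map_zero]))
    exact isUnit_iff_ne_zero.2 this
  let L : Localization P.primeCompl →+* F := IsLocalization.lift (M := P.primeCompl) hu
  let κ : (Proj 𝒜).functionField →+* F :=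
    (L.comp (algebraMap (AtPrime 𝒜 P) (Localization P.primeCompl))).comp
      (stalkToFiberRingHom 𝒜 η).hom
  refine ⟨κ, ?_, ?_⟩
  · intro m hm f hf hf0 n s hs hη
    have h1 : (stalkToFiberRingHom 𝒜 η).hom ((Proj 𝒜).presheaf.germ (Proj.basicOpen 𝒜 f)
        (genericPoint (Proj 𝒜)) hη (Proj.awayToSection 𝒜 f (Away.mk 𝒜 hf n s hs))) =
        (Proj.awayToSection 𝒜 f (Away.mk 𝒜 hf n s hs)).1 ⟨η, hη⟩ :=
      stalkToFiberRingHom_germ 𝒜 (Proj.basicOpen 𝒜 f) η hη _
    have h2 : κ ((Proj 𝒜).presheaf.germ (Proj.basicOpen 𝒜 f) (genericPoint (Proj 𝒜)) hη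
        (Proj.awayToSection 𝒜 f (Away.mk 𝒜 hf n s hs))) =
        L (((Proj.awayToSection 𝒜 f (Away.mk 𝒜 hf n s hs)).1 ⟨η, hη⟩).val) := by
      rw [← h1]
      rfl
    rw [h2]
    have h3 := ProjectiveSpectrum.Proj.awayToSection_apply 𝒜 f (Away.mk 𝒜 hf n s hs) ⟨η, hη⟩
    have h4 : ((Proj.awayToSection 𝒜 f (Away.mk 𝒜 hf n s hs)).1 ⟨η, hη⟩).val =
        IsLocalization.map (M := Submonoid.powers f) (T := P.primeCompl) _
          (RingHom.id _) (Submonoid.powers_le.mpr hη) (Away.mk 𝒜 hf n s hs).val := h3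
    rw [h4, Away.val_mk, Localization.mk_eq_mk', IsLocalization.map_mk']
    have hfF : ψ f ≠ 0 := fun h0 => hf0 (hψ (by rw [h0, map_zero]))
    refine (IsLocalization.lift_mk'_spec hu _ _ _).2 ?_
    show ψ s = ψ (f ^ n) * (ψ s / ψ f ^ n)
    rw [map_pow]
    field_simp
  · intro z
    set w : AtPrime 𝒜 P := (stalkToFiberRingHom 𝒜 η).hom z with hw
    have hb : w.den ≠ 0 := fun h0 => w.den_mem (by rw [h0]; exact zero_mem _)
    refine ⟨w.deg, w.num, w.den, w.num_mem_deg, w.den_mem_deg, hb, ?_⟩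
    have h1 : κ z = L (w.val) := rfl
    rw [h1, HomogeneousLocalization.eq_num_div_den, Localization.mk_eq_mk']
    refine (IsLocalization.lift_mk'_spec hu _ _ _).2 ?_
    have hfF : ψ w.den ≠ 0 := fun h0 => hb (hψ (by rw [h0, map_zero]))
    show ψ w.num = ψ w.den * (ψ w.num / ψ w.den)
    field_simp

section

variable (k : Type) {E : Type} [Field k] [Field E] [Algebra k E] {I : Type} (ξ : I → E)

theorem exists_kappa [IsIntegral (Proj (AG k ξ))] :
    ∃ κ : (Proj (AG k ξ)).functionField →+* E,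
      ∀ (m : ℕ) (_ : 0 < m) (f : SS k ξ) (hf : f ∈ AG k ξ m) (_ : f ≠ 0) (n : ℕ) (s : SS k ξ)
        (hs : s ∈ AG k ξ (n * m)) (hη : genericPoint (Proj (AG k ξ)) ∈ Proj.basicOpen (AG k ξ) f),
        κ ((Proj (AG k ξ)).presheaf.germ (Proj.basicOpen (AG k ξ) f)
          (genericPoint (Proj (AG k ξ))) hη
          (Proj.awayToSection (AG k ξ) f (Away.mk (AG k ξ) hf n s hs))) =
            (s : E[X]).coeff (n * m) / ((f : E[X]).coeff m) ^ n := by
  let F := FractionRing E[X]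
  let α : E[X] →+* F := algebraMap E[X] F
  have hα : Function.Injective α := IsFractionRing.injective E[X] F
  let ψ : SS k ξ →+* F := α.comp (SS k ξ).subtype
  have hψ : Function.Injective ψ := hα.comp Subtype.coe_injective
  let φ : E →+* F := α.comp C
  have hφ : Function.Injective φ := φ.injective
  have hX : α X ≠ 0 := fun h0 => X_ne_zero (hα (by rw [h0, map_zero]))
  have hmon : ∀ (d : ℕ) (a : E), α (monomial d a) = φ a * α X ^ d := by
    intro d a
    rw [← C_mul_X_pow_eq_monomial, map_mul, map_pow]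
    rfl
  have hval : ∀ (d : ℕ) (s : SS k ξ), s ∈ AG k ξ d →
      ψ s = φ ((s : E[X]).coeff d) * α X ^ d := by
    intro d s hs
    rw [← hmon, ← coe_eq k ξ hs]
    rfl
  obtain ⟨κ, h1, h2⟩ := exists_proj_embedding' ψ hψ (AG k ξ)
  have hr : ∀ z, κ z ∈ φ.range := by
    intro z
    obtain ⟨d, a, b, ha, hb, hb0, h⟩ := h2 z
    refine ⟨(a : E[X]).coeff d / (b : E[X]).coeff d, ?_⟩
    have hbne : (b : E[X]).coeff d ≠ 0 := by
      intro h0
      apply hb0
      apply Subtype.ext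
      rw [coe_eq k ξ hb, h0, monomial_zero_right]
      rfl
    rw [h, hval d a ha, hval d b hb, map_div₀]
    have h4 : α X ^ d ≠ 0 := pow_ne_zero _ hX
    rw [mul_div_mul_right _ _ h4]
  let e : E ≃+* φ.range := RingEquiv.ofBijective φ.rangeRestrict
    ⟨fun _ _ h => hφ (congrArg Subtype.val h), φ.rangeRestrict_surjective⟩
  let κE : (Proj (AG k ξ)).functionField →+* E :=
    (e.symm : φ.range →+* E).comp (κ.codRestrict φ.range hr)
  have hκ : ∀ z, φ (κE z) = κ z := by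
    intro z
    have h := e.apply_symm_apply (κ.codRestrict φ.range hr z)
    exact congrArg Subtype.val h
  refine ⟨κE, ?_⟩
  intro m hm f hf hf0 n s hs hη
  apply hφ
  rw [hκ, h1 m hm f hf hf0 n s hs hη, hval m f hf, hval _ s hs, map_div₀, map_pow]
  have hfne : (f : E[X]).coeff m ≠ 0 := by
    intro h0
    apply hf0
    apply Subtype.ext
    rw [coe_eq k ξ hf, h0, monomial_zero_right]
    rfl
  have h3 : φ ((f : E[X]).coeff m) ≠ 0 := fun h0 => hfne (hφ (by rw [h0, map_zero]))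
  rw [mul_pow, ← pow_mul, mul_comm m n]
  have h4 : α X ^ (n * m) ≠ 0 := pow_ne_zero _ hX
  rw [mul_div_mul_right _ _ h4]

end

end Pool.Agent.W538.CB
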