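import Mathlib

/-! The graded ring with given homogeneous coordinates `ξ_i` in a field `E`:
polynomials `∑ a_d T^d` with `a_d` in the span of the products of `d` of the `ξ_i`. -/

set_option autoImplicit false

open Polynomial

namespace Pool.Agent.W538.CB

section ring

variable (k : Type) {E : Type} [Field k] [Field E] [Algebra k E] {I : Type} (ξ : I → E)

/-- forms of degree `d` -/
def VV (d : ℕ) : Submodule k E := (Submodule.span k (Set.range ξ)) ^ d

lemma VV_mul {a b : ℕ} {x y : E} (hx : x ∈ VV k ξ a) (hy : y ∈ VV k ξ b) :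
    x * y ∈ VV k ξ (a + b) := by
  rw [VV, pow_add]
  exact Submodule.mul_mem_mul hx hy

lemma VV_zero {x : E} : x ∈ VV k ξ 0 ↔ ∃ c : k, algebraMap k E c = x := by
  rw [VV, pow_zero, Submodule.mem_one]

lemma xi_mem (i : I) : ξ i ∈ VV k ξ 1 := by
  rw [VV, pow_one]
  exact Submodule.subset_span ⟨i, rfl⟩

/-- the graded ring -/
def SS : Subring E[X] where
  carrier := {f | ∀ d, f.coeff d ∈ VV k ξ d}
  zero_mem' := fun d => by rw [coeff_zero]; exact Submodule.zero_mem _
  one_mem' := fun d => by
    rw [coeff_one]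
    split_ifs with h
    · subst h
      exact (VV_zero k ξ).2 ⟨1, map_one _⟩
    · exact Submodule.zero_mem _
  add_mem' := fun {f g} hf hg d => by
    rw [coeff_add]
    exact Submodule.add_mem _ (hf d) (hg d)
  neg_mem' := fun {f} hf d => by
    rw [coeff_neg]
    exact Submodule.neg_mem _ (hf d)
  mul_mem' := fun {f g} hf hg d => by
    rw [coeff_mul]
    refine Submodule.sum_mem _ fun x hx => ?_
    have h := Finset.HasAntidiagonal.mem_antidiagonal.1 hx
    rw [← h]
    exact VV_mul k ξ (hf _) (hg _)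

lemma mem_SS {f : E[X]} : f ∈ SS k ξ ↔ ∀ d, f.coeff d ∈ VV k ξ d := Iff.rfl

lemma monomial_mem {d : ℕ} {a : E} (ha : a ∈ VV k ξ d) : monomial d a ∈ SS k ξ := by
  intro j
  rw [coeff_monomial]
  split_ifs with h
  · rw [← h]; exact ha
  · exact Submodule.zero_mem _

/-- homogeneous elements -/
noncomputable def mn {d : ℕ} {a : E} (ha : a ∈ VV k ξ d) : SS k ξ := ⟨monomial d a, monomial_mem k ξ ha⟩

/-- the grading -/
def AG (d : ℕ) : AddSubgroup (SS k ξ) where
  carrier := {s | ∀ j, j ≠ d → (s : E[X]).coeff j = 0}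
  zero_mem' := fun j _ => by simp
  add_mem' := fun {a b} ha hb j hj => by
    rw [Subring.coe_add, coeff_add, ha j hj, hb j hj, add_zero]
  neg_mem' := fun {a} ha j hj => by
    rw [NegMemClass.coe_neg, coeff_neg, ha j hj, neg_zero]

lemma mem_AG {d : ℕ} {s : SS k ξ} : s ∈ AG k ξ d ↔ ∀ j, j ≠ d → (s : E[X]).coeff j = 0 := Iff.rfl

lemma mn_mem {d : ℕ} {a : E} (ha : a ∈ VV k ξ d) : mn k ξ ha ∈ AG k ξ d := by
  intro j hj
  rw [mn, coeff_monomial, if_neg (Ne.symm hj)]

lemma eq_mn {d : ℕ} {s : SS k ξ} (hs : s ∈ AG k ξ d) : s = mn k ξ (s.2 d) := by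
  apply Subtype.ext
  rw [mn]
  ext j
  rw [coeff_monomial]
  split_ifs with h
  · rw [h]
  · exact hs j (Ne.symm h)

lemma coe_eq {d : ℕ} {s : SS k ξ} (hs : s ∈ AG k ξ d) :
    (s : E[X]) = monomial d ((s : E[X]).coeff d) := congrArg Subtype.val (eq_mn k ξ hs)

instance : SetLike.GradedMonoid (AG k ξ) where
  one_mem := fun j hj => by
    rw [Subring.coe_one, coeff_one, if_neg hj]
  mul_mem := fun i j a b ha hb => by
    intro l hl
    rw [Subring.coe_mul, coe_eq k ξ ha, coe_eq k ξ hb, monomial_mul_monomial, coeff_monomial,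
      if_neg (Ne.symm hl)]

lemma isInternal_AG : DirectSum.IsInternal (AG k ξ) := by
  classical
  constructor
  · rw [injective_iff_map_eq_zero]
    intro y hy
    refine DFinsupp.ext fun d => ?_
    by_cases hd : d ∈ DFinsupp.support y
    · have h1 := congrArg (fun s : SS k ξ => (s : E[X]).coeff d) hy
      rw [DirectSum.coeAddMonoidHom_eq_dfinsuppSum, DFinsupp.sum] at h1
      simp only [AddSubmonoidClass.coe_finsetSum, finsetSum_coeff, ZeroMemClass.coe_zero,
        coeff_zero] at h1
      rw [Finset.sum_eq_single_of_mem d hd] at h1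
      · have h2 : ((y d : SS k ξ) : E[X]) = 0 := by
          rw [coe_eq k ξ (y d).2, h1, monomial_zero_right]
        simpa using h2
      · intro b _ hb
        exact (y b).2 d (Ne.symm hb)
    · have := DFinsupp.notMem_support_iff.mp hd
      rw [this]; rfl
  · intro s
    refine ⟨∑ d ∈ (s : E[X]).support, DirectSum.of (fun d => AG k ξ d) d
      ⟨mn k ξ (s.2 d), mn_mem k ξ (s.2 d)⟩, ?_⟩
    rw [map_sum]
    simp only [DirectSum.coeAddMonoidHom_of]
    apply Subtype.ext
    rw [AddSubmonoidClass.coe_finsetSum]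
    change ∑ d ∈ (s : E[X]).support, monomial d ((s : E[X]).coeff d) = _
    exact (as_sum_support (s : E[X])).symm

noncomputable instance : GradedRing (AG k ξ) where
  __ := (isInternal_AG k ξ).chooseDecomposition
  one_mem := SetLike.GradedOne.one_mem
  mul_mem := SetLike.GradedMul.mul_mem

/-- the coordinates -/
noncomputable def ys (i : I) : SS k ξ := mn k ξ (xi_mem k ξ i)

lemma ys_mem (i : I) : ys k ξ i ∈ AG k ξ 1 := mn_mem k ξ _

lemma coe_ys (i : I) : ((ys k ξ i : SS k ξ) : E[X]) = monomial 1 (ξ i) := rfl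

lemma ys_ne {i : I} (hi : ξ i ≠ 0) : ys k ξ i ≠ 0 := by
  intro h
  have h1 := congrArg (fun s : SS k ξ => (s : E[X]).coeff 1) h
  simp [coe_ys] at h1
  exact hi h1

/-- constants -/
noncomputable def cst : k →+* AG k ξ 0 where
  toFun c := ⟨mn k ξ ((VV_zero k ξ).2 ⟨c, rfl⟩), mn_mem k ξ _⟩
  map_one' := by
    apply Subtype.ext; apply Subtype.ext
    change monomial 0 (algebraMap k E 1) = 1
    rw [map_one]; rfl
  map_mul' a b := by
    apply Subtype.ext; apply Subtype.ext
    change monomial 0 (algebraMap k E (a * b)) =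
      monomial 0 (algebraMap k E a) * monomial 0 (algebraMap k E b)
    rw [monomial_mul_monomial, map_mul]
  map_zero' := by
    apply Subtype.ext; apply Subtype.ext
    change monomial 0 (algebraMap k E 0) = 0
    rw [map_zero, monomial_zero_right]
  map_add' a b := by
    apply Subtype.ext; apply Subtype.ext
    change monomial 0 (algebraMap k E (a + b)) =
      monomial 0 (algebraMap k E a) + monomial 0 (algebraMap k E b)
    rw [map_add, map_add]

lemma coe_cst (c : k) : (((cst k ξ c : AG k ξ 0) : SS k ξ) : E[X]) = monomial 0 (algebraMap k E c) :=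
  rfl

lemma cst_bijective : Function.Bijective (cst k ξ) := by
  constructor
  · intro a b hab
    have h1 := congrArg (fun s : AG k ξ 0 => ((s : SS k ξ) : E[X]).coeff 0) hab
    simp only [coe_cst, coeff_monomial, if_true] at h1
    exact (algebraMap k E).injective h1
  · intro a
    obtain ⟨c, hc⟩ := (VV_zero k ξ).1 ((a : SS k ξ).2 0)
    refine ⟨c, ?_⟩
    apply Subtype.ext; apply Subtype.ext
    rw [coe_cst, hc, ← coe_eq k ξ a.2]

lemma mem_adjoin_of {A : Subalgebra (AG k ξ 0) (SS k ξ)} (hA : ∀ i, ys k ξ i ∈ A) :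
    ∀ (d : ℕ) (a : E) (ha : a ∈ VV k ξ d), mn k ξ ha ∈ A := by
  have h0 : ∀ (c : k) (h : algebraMap k E c ∈ VV k ξ 0), mn k ξ h ∈ A := by
    intro c h
    exact A.algebraMap_mem (cst k ξ c)
  have h1 : ∀ (a : E) (ha : a ∈ VV k ξ 1), mn k ξ ha ∈ A := by
    intro a ha
    have ha' : a ∈ Submodule.span k (Set.range ξ) := by rwa [VV, pow_one] at ha
    induction ha' using Submodule.span_induction with
    | mem x hx =>
      obtain ⟨i, rfl⟩ := hx
      exact hA i
    | zero =>
      have : mn k ξ ha = 0 := by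
        apply Subtype.ext
        change monomial 1 (0 : E) = 0
        exact monomial_zero_right _
      rw [this]
      exact zero_mem _
    | add x y hx hy ihx ihy =>
      have hx1 : x ∈ VV k ξ 1 := by rwa [VV, pow_one]
      have hy1 : y ∈ VV k ξ 1 := by rwa [VV, pow_one]
      have : mn k ξ ha = mn k ξ hx1 + mn k ξ hy1 := by
        apply Subtype.ext
        change monomial 1 (x + y) = monomial 1 x + monomial 1 y
        exact map_add _ _ _
      rw [this]
      exact add_mem (ihx hx1) (ihy hy1)
    | smul c x hx ihx =>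
      have hx1 : x ∈ VV k ξ 1 := by rwa [VV, pow_one]
      have : mn k ξ ha = mn k ξ ((VV_zero k ξ).2 ⟨c, rfl⟩) * mn k ξ hx1 := by
        apply Subtype.ext
        change monomial 1 (c • x) = monomial 0 (algebraMap k E c) * monomial 1 x
        rw [monomial_mul_monomial, zero_add, Algebra.smul_def]
      rw [this]
      exact mul_mem (h0 c _) (ihx hx1)
  intro d a ha
  have ha2 : a ∈ (Submodule.span k (Set.range ξ)) ^ d := ha
  revert ha
  refine Submodule.pow_induction_on_left' (Submodule.span k (Set.range ξ))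
    (C := fun n x _ => ∀ h : x ∈ VV k ξ n, mn k ξ h ∈ A) ?_ ?_ ?_ ha2
  · intro c h
    exact h0 c h
  · intro x y i hx hy ihx ihy h
    have : mn k ξ h = mn k ξ (show x ∈ VV k ξ i from hx) + mn k ξ (show y ∈ VV k ξ i from hy) := by
      apply Subtype.ext
      change monomial i (x + y) = monomial i x + monomial i y
      exact map_add _ _ _
    rw [this]
    exact add_mem (ihx _) (ihy _)
  · intro m hm i x hx ihx h
    have hm1 : m ∈ VV k ξ 1 := by rwa [VV, pow_one]
    have : mn k ξ h = mn k ξ hm1 * mn k ξ (show x ∈ VV k ξ i from hx) := by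
      apply Subtype.ext
      change monomial i.succ (m * x) = monomial 1 m * monomial i x
      rw [monomial_mul_monomial, add_comm 1 i]
    rw [this]
    exact mul_mem (h1 _ _) (ihx _)

lemma adjoin_ys : Algebra.adjoin (AG k ξ 0) (Set.range (ys k ξ)) = ⊤ := by
  rw [eq_top_iff]
  intro s _
  have h1 : s = ∑ d ∈ (s : E[X]).support, mn k ξ (s.2 d) := by
    apply Subtype.ext
    rw [AddSubmonoidClass.coe_finsetSum]
    exact as_sum_support (s : E[X])
  rw [h1]
  refine Subalgebra.sum_mem _ fun d _ => ?_
  exact mem_adjoin_of k ξ (A := Algebra.adjoin (AG k ξ 0) (Set.range (ys k ξ)))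
    (fun i => Algebra.subset_adjoin (Set.mem_range_self i)) d _ _

instance finiteType_SS [Finite I] : Algebra.FiniteType (AG k ξ 0) (SS k ξ) := by
  constructor
  rw [Subalgebra.fg_def]
  exact ⟨Set.range (ys k ξ), Set.finite_range _, adjoin_ys k ξ⟩

/-- a form of positive degree is in the ideal generated by the coordinates -/
lemma mem_ideal {d : ℕ} (hd : 0 < d) {s : SS k ξ} (hs : s ∈ AG k ξ d) :
    s ∈ Ideal.span (Set.range (ys k ξ)) := by
  obtain ⟨d, rfl⟩ := Nat.exists_eq_succ_of_ne_zero hd.ne'
  have hsp : ∀ (a : E) (ha : a ∈ VV k ξ 1), mn k ξ ha ∈ Ideal.span (Set.range (ys k ξ)) := by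
    intro a ha
    have ha' : a ∈ Submodule.span k (Set.range ξ) := by rwa [VV, pow_one] at ha
    induction ha' using Submodule.span_induction with
    | mem x hx =>
      obtain ⟨i, rfl⟩ := hx
      exact Ideal.subset_span ⟨i, rfl⟩
    | zero =>
      have : mn k ξ ha = 0 := by
        apply Subtype.ext
        change monomial 1 (0 : E) = 0
        exact monomial_zero_right _
      rw [this]
      exact zero_mem _
    | add x y hx hy ihx ihy =>
      have hx1 : x ∈ VV k ξ 1 := by rwa [VV, pow_one]
      have hy1 : y ∈ VV k ξ 1 := by rwa [VV, pow_one]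
      have : mn k ξ ha = mn k ξ hx1 + mn k ξ hy1 := by
        apply Subtype.ext
        change monomial 1 (x + y) = monomial 1 x + monomial 1 y
        exact map_add _ _ _
      rw [this]
      exact add_mem (ihx hx1) (ihy hy1)
    | smul c x hx ihx =>
      have hx1 : x ∈ VV k ξ 1 := by rwa [VV, pow_one]
      have : mn k ξ ha = mn k ξ ((VV_zero k ξ).2 ⟨c, rfl⟩) * mn k ξ hx1 := by
        apply Subtype.ext
        change monomial 1 (c • x) = monomial 0 (algebraMap k E c) * monomial 1 x
        rw [monomial_mul_monomial, zero_add, Algebra.smul_def]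
      rw [this]
      exact Ideal.mul_mem_left _ _ (ihx hx1)
  have hall : ∀ (a : E) (ha : a ∈ VV k ξ d.succ), mn k ξ ha ∈ Ideal.span (Set.range (ys k ξ)) := by
    intro a ha
    have ha2 : a ∈ Submodule.span k (Set.range ξ) * (Submodule.span k (Set.range ξ)) ^ d := by
      rw [← pow_succ']
      exact ha
    revert ha
    refine Submodule.mul_induction_on' (C := fun x _ => ∀ h : x ∈ VV k ξ d.succ,
      mn k ξ h ∈ Ideal.span (Set.range (ys k ξ))) ?_ ?_ ha2
    · intro m hm x hx h
      have hm1 : m ∈ VV k ξ 1 := by rwa [VV, pow_one]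
      have : mn k ξ h = mn k ξ (show x ∈ VV k ξ d from hx) * mn k ξ hm1 := by
        apply Subtype.ext
        change monomial d.succ (m * x) = monomial d x * monomial 1 m
        rw [monomial_mul_monomial, mul_comm]
      rw [this]
      exact Ideal.mul_mem_left _ _ (hsp _ _)
    · intro x hx y hy ihx ihy h
      have hx1 : x ∈ VV k ξ d.succ := by rw [VV, pow_succ']; exact hx
      have hy1 : y ∈ VV k ξ d.succ := by rw [VV, pow_succ']; exact hy
      have : mn k ξ h = mn k ξ hx1 + mn k ξ hy1 := by
        apply Subtype.ext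
        change monomial d.succ (x + y) = monomial d.succ x + monomial d.succ y
        exact map_add _ _ _
      rw [this]
      exact add_mem (ihx hx1) (ihy hy1)
  rw [eq_mn k ξ hs]
  exact hall _ _

end ring

end Pool.Agent.W538.CB
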