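import Pool.Agent.W538.CB.Emb
import Pool.Agent.W525.CB.Stm

/-! The projective variety with given homogeneous coordinates. -/

set_option autoImplicit false

open AlgebraicGeometry CategoryTheory HomogeneousLocalization Polynomial

namespace Pool.Agent.W538.CB

open Pool.Agent.H187R3 Pool.Agent.W525.CB

section gen

variable {A : Type} [CommRing A] (𝒜 : ℕ → AddSubgroup A) [GradedRing 𝒜]

lemma isUnit_mapId' (P : Ideal A)
    [P.IsPrime] {f g : A} (hf : f ∈ 𝒜 1) (hg : g ∈ 𝒜 (1 • 1))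
    (hP : Submonoid.powers f ≤ P.primeCompl) :
    IsUnit (HomogeneousLocalization.mapId 𝒜 hP (Away.mk 𝒜 hf 1 g hg)) ↔ g ∉ P := by
  rw [← isUnit_iff_isUnit_val]
  have h : (HomogeneousLocalization.mapId 𝒜 hP (Away.mk 𝒜 hf 1 g hg)).val =
    Localization.mk g ⟨f ^ 1, hP ⟨1, rfl⟩⟩ := rfl
  rw [h, Localization.mk_eq_mk', IsLocalization.AtPrime.isUnit_mk'_iff _ P]
  rfl

/-- the map from the degree zero part to the global sections -/
noncomputable def phiE : CommRingCat.of (𝒜 0) ⟶ Γ(Proj 𝒜, ⊤) :=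
  CommRingCat.ofHom (fromZeroRingHom 𝒜 (Submonoid.powers 1)) ≫ Proj.awayToSection 𝒜 1 ≫
    (Proj 𝒜).presheaf.map (homOfLE (Proj.basicOpen_one 𝒜).ge).op

lemma toSpecZero_eq : Proj.toSpecZero 𝒜 = (Proj 𝒜).toSpecΓ ≫ Spec.map (phiE 𝒜) := by
  rw [phiE, Proj.toSpecZero, Proj.basicOpenToSpec, Spec.map_comp, Spec.map_comp]
  simp only [Category.assoc]
  have h1 := Scheme.Opens.toSpecΓ_SpecMap_presheaf_map ⊤ (Proj.basicOpen 𝒜 1)
    (Proj.basicOpen_one 𝒜).ge
  rw [Scheme.Opens.toSpecΓ_top] at h1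
  rw [Scheme.isoOfEq_inv]
  have h2 : (Scheme.topIso (Proj 𝒜)).inv ≫ (Proj 𝒜).homOfLE (Proj.basicOpen_one 𝒜).ge ≫
      (Proj.basicOpen 𝒜 1).toSpecΓ = (Proj 𝒜).toSpecΓ ≫
        Spec.map ((Proj 𝒜).presheaf.map (homOfLE (Proj.basicOpen_one 𝒜).ge).op) := by
    rw [← h1, Category.assoc, ← Category.assoc, Scheme.toIso_inv_ι, Category.id_comp]
  rw [← Category.assoc, ← Category.assoc, Category.assoc (Scheme.topIso _).inv, h2]
  simp only [Category.assoc]

/-- the scalars of a morphism to an affine scheme -/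
lemma appTop_eq {R : CommRingCat.{0}} {X : Scheme.{0}} (φ : R ⟶ Γ(X, ⊤)) :
    (Scheme.ΓSpecIso R).inv ≫ (X.toSpecΓ ≫ Spec.map φ).appTop = φ := by
  rw [Scheme.Hom.comp_appTop, Scheme.toSpecΓ_appTop, ← Category.assoc,
    ← Scheme.ΓSpecIso_inv_naturality, Category.assoc, Iso.inv_hom_id, Category.comp_id]

end gen

section

variable (k : Type) {E : Type} [Field k] [Field E] [Algebra k E] {I : Type} (ξ : I → E)

/-- the charts cover -/
theorem cover_X (x : Proj (AG k ξ)) : ∃ i : I, x ∈ Proj.basicOpen (AG k ξ) (ys k ξ i) := by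
  classical
  by_contra hcon
  push Not at hcon
  have hmem : ∀ i, ys k ξ i ∈ x.asHomogeneousIdeal.toIdeal := by
    intro i
    have := hcon i
    rw [Proj.mem_basicOpen, not_not] at this
    exact this
  have hspan : Ideal.span (Set.range (ys k ξ)) ≤ x.asHomogeneousIdeal.toIdeal := by
    rw [Ideal.span_le]
    rintro _ ⟨i, rfl⟩
    exact hmem i
  apply ProjectiveSpectrum.not_irrelevant_le x
  intro z hz
  have hz' : z ∈ HomogeneousIdeal.irrelevant (AG k ξ) := hz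
  rw [HomogeneousIdeal.mem_irrelevant_iff, GradedRing.proj_apply] at hz'
  rw [← DirectSum.sum_support_decompose (AG k ξ) z]
  refine Ideal.sum_mem _ fun d _ => ?_
  by_cases hd : d = 0
  · subst hd
    rw [hz']
    exact Ideal.zero_mem _
  · exact hspan (mem_ideal k ξ (Nat.pos_of_ne_zero hd)
      (SetLike.coe_mem (DirectSum.decompose (AG k ξ) z d)))

theorem int_X (i : I) (hi : ξ i ≠ 0) : IsIntegral (Proj (AG k ξ)) :=
  proj_isIntegral (AG k ξ) ⟨1, one_pos, ys k ξ i, ys_mem k ξ i, ys_ne k ξ hi⟩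

variable [IsIntegral (Proj (AG k ξ))]

lemma generic_memE (hξ : ∀ i, ξ i ≠ 0) (i : I) :
    genericPoint (Proj (AG k ξ)) ∈ Proj.basicOpen (AG k ξ) (ys k ξ i) := by
  let z : ProjectiveSpectrum (AG k ξ) :=
    projZeroPoint (AG k ξ) ⟨1, one_pos, ys k ξ i, ys_mem k ξ i, ys_ne k ξ (hξ i)⟩
  have hz : (z : Proj (AG k ξ)) ∈ Proj.basicOpen (AG k ξ) (ys k ξ i) := by
    show ys k ξ i ∉ (⊥ : HomogeneousIdeal (AG k ξ)).toIdeal
    rw [HomogeneousIdeal.toIdeal_bot]
    simpa using ys_ne k ξ (hξ i)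
  rw [← SetLike.mem_coe]
  exact ((genericPoint_spec (Proj (AG k ξ))).mem_open_set_iff
    (Proj.basicOpen (AG k ξ) (ys k ξ i)).isOpen).mpr ⟨z, trivial, hz⟩

lemma generic_mem_one : genericPoint (Proj (AG k ξ)) ∈ Proj.basicOpen (AG k ξ) 1 := by
  rw [Proj.basicOpen_one]; trivial

/-- characterization of the embedding -/
def KSpec (κ : (Proj (AG k ξ)).functionField →+* E) : Prop :=
  ∀ (m : ℕ) (_ : 0 < m) (f : SS k ξ) (hf : f ∈ AG k ξ m) (_ : f ≠ 0) (n : ℕ) (s : SS k ξ)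
    (hs : s ∈ AG k ξ (n * m)) (hη : genericPoint (Proj (AG k ξ)) ∈ Proj.basicOpen (AG k ξ) f),
    κ ((Proj (AG k ξ)).presheaf.germ (Proj.basicOpen (AG k ξ) f)
      (genericPoint (Proj (AG k ξ))) hη
      (Proj.awayToSection (AG k ξ) f (Away.mk (AG k ξ) hf n s hs))) =
        (s : E[X]).coeff (n * m) / ((f : E[X]).coeff m) ^ n

variable {k ξ} (κ : (Proj (AG k ξ)).functionField →+* E) (hκ : KSpec k ξ κ) (hξ : ∀ i, ξ i ≠ 0)

include hκ hξ in
lemma kap_phiE [Nonempty I] (a : AG k ξ 0) :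
    κ ((Proj (AG k ξ)).presheaf.germ ⊤ (genericPoint (Proj (AG k ξ))) trivial
      ((phiE (AG k ξ)).hom a)) = ((a : SS k ξ) : E[X]).coeff 0 := by
  obtain ⟨i⟩ := ‹Nonempty I›
  have hη := generic_memE k ξ hξ i
  have h1 := Proj.awayMap_awayToSection (𝒜 := AG k ξ) (f := 1) (ys_mem k ξ i)
    (x := ys k ξ i) (one_mul _).symm
  have h2 := congrArg (fun φ => φ.hom (fromZeroRingHom (AG k ξ) (Submonoid.powers 1) a)) h1
  simp only [CommRingCat.hom_comp, CommRingCat.hom_ofHom, RingHom.comp_apply] at h2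
  rw [awayMap_fromZeroRingHom] at h2
  have h3 : (Proj (AG k ξ)).presheaf.germ ⊤ (genericPoint (Proj (AG k ξ))) trivial
      ((phiE (AG k ξ)).hom a) =
      (Proj (AG k ξ)).presheaf.germ (Proj.basicOpen (AG k ξ) (ys k ξ i))
        (genericPoint (Proj (AG k ξ))) hη
        (Proj.awayToSection (AG k ξ) (ys k ξ i) (Away.mk (AG k ξ) (ys_mem k ξ i) 0 (a : SS k ξ)
          (by simp))) := by
    have h4 : (Proj (AG k ξ)).presheaf.germ ⊤ (genericPoint (Proj (AG k ξ))) trivial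
        ((phiE (AG k ξ)).hom a) =
        (Proj (AG k ξ)).presheaf.germ (Proj.basicOpen (AG k ξ) 1) (genericPoint (Proj (AG k ξ)))
          (generic_mem_one k ξ)
          ((Proj.awayToSection (AG k ξ) 1).hom
            (fromZeroRingHom (AG k ξ) (Submonoid.powers 1) a)) :=
      TopCat.Presheaf.germ_res_apply (Proj (AG k ξ)).presheaf
        (homOfLE (Proj.basicOpen_one (AG k ξ)).ge) (genericPoint (Proj (AG k ξ))) trivial
        ((Proj.awayToSection (AG k ξ) 1).hom (fromZeroRingHom (AG k ξ) (Submonoid.powers 1) a))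
    have h5 := TopCat.Presheaf.germ_res_apply (Proj (AG k ξ)).presheaf
        (homOfLE (Proj.basicOpen_mono (AG k ξ) _ _ ⟨_, (one_mul (ys k ξ i)).symm⟩))
        (genericPoint (Proj (AG k ξ))) hη
        ((Proj.awayToSection (AG k ξ) 1).hom (fromZeroRingHom (AG k ξ) (Submonoid.powers 1) a))
    rw [h4, ← h5, ← h2]
    congr 2
  rw [h3, hκ 1 one_pos _ _ (ys_ne k ξ (hξ i))]
  simp

/-- germs of elements of the chart ring -/
noncomputable def gs (i : I) (x : Proj (AG k ξ)) (hx : x ∈ Proj.basicOpen (AG k ξ) (ys k ξ i)) :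
    Away (AG k ξ) (ys k ξ i) →+* (Proj (AG k ξ)).presheaf.stalk x :=
  (((Proj (AG k ξ)).presheaf.germ _ x hx).hom).comp (Proj.awayToSection (AG k ξ) (ys k ξ i)).hom

/-- values of elements of the chart ring in the big field -/
noncomputable def av (i : I) : Away (AG k ξ) (ys k ξ i) →+* E :=
  κ.comp (gs i (genericPoint (Proj (AG k ξ))) (generic_memE k ξ hξ i))

include hκ in
lemma av_mk (i : I) (n : ℕ) (s : SS k ξ) (hs : s ∈ AG k ξ (n • 1)) :
    av κ hξ i (Away.mk (AG k ξ) (ys_mem k ξ i) n s hs) = (s : E[X]).coeff n / ξ i ^ n := by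
  have h := hκ 1 one_pos (ys k ξ i) (ys_mem k ξ i) (ys_ne k ξ (hξ i)) n s hs
    (generic_memE k ξ hξ i)
  rw [coe_ys, coeff_monomial, if_pos rfl, mul_one] at h
  exact h

lemma kap_gs (i : I) (x : Proj (AG k ξ)) (hx : x ∈ Proj.basicOpen (AG k ξ) (ys k ξ i))
    (a : Away (AG k ξ) (ys k ξ i)) :
    κ (algebraMap _ (Proj (AG k ξ)).functionField (gs i x hx a)) = av κ hξ i a := by
  have : Nonempty (Proj.basicOpen (AG k ξ) (ys k ξ i)) := ⟨⟨x, hx⟩⟩
  have h := Scheme.algebraMap_germ_eq_germToFunctionField (X := Proj (AG k ξ)) hx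
    ((Proj.awayToSection (AG k ξ) (ys k ξ i)).hom a)
  change κ (algebraMap _ (Proj (AG k ξ)).functionField ((Proj (AG k ξ)).presheaf.germ _ x hx
    ((Proj.awayToSection (AG k ξ) (ys k ξ i)).hom a))) = _
  rw [h]
  rfl

include hκ hξ in
/-- `ξ_j / ξ_i` is a unit of the stalk at `x ∈ D₊(ξ_i)` iff `x ∈ D₊(ξ_j)` -/
theorem unit_iff (i j : I) (x : Proj (AG k ξ)) (hx : x ∈ Proj.basicOpen (AG k ξ) (ys k ξ i)) :
    ∃ a : (Proj (AG k ξ)).presheaf.stalk x,
      κ (algebraMap _ (Proj (AG k ξ)).functionField a) = ξ j / ξ i ∧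
      (IsUnit a ↔ x ∈ Proj.basicOpen (AG k ξ) (ys k ξ j)) := by
  have hj : ys k ξ j ∈ AG k ξ (1 • 1) := ys_mem k ξ j
  refine ⟨gs i x hx (Away.mk (AG k ξ) (ys_mem k ξ i) 1 (ys k ξ j) hj), ?_, ?_⟩
  · rw [kap_gs κ hξ, av_mk κ hκ hξ, pow_one, coe_ys, coeff_monomial, if_pos rfl]
  · have h1 := ProjectiveSpectrum.Proj.awayToSection_germ (AG k ξ) (ys k ξ i) x hx
    have h2 : gs i x hx (Away.mk (AG k ξ) (ys_mem k ξ i) 1 (ys k ξ j) hj) =
        (Proj.stalkIso (AG k ξ) x).commRingCatIsoToRingEquiv.symm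
          (HomogeneousLocalization.mapId (AG k ξ) (Submonoid.powers_le.mpr hx)
            (Away.mk (AG k ξ) (ys_mem k ξ i) 1 (ys k ξ j) hj)) := by
      have h3 := congrArg (fun f => f.hom (Away.mk (AG k ξ) (ys_mem k ξ i) 1 (ys k ξ j) hj)) h1
      exact h3
    rw [h2, MulEquiv.isUnit_map]
    exact @isUnit_mapId' (SS k ξ) _ (AG k ξ) _ _ (ProjectiveSpectrum.isPrime x) _ _ _ _ _

lemma div_mem_adjoin (i : I) (n : ℕ) (a : E) (ha : a ∈ VV k ξ n) :
    a / ξ i ^ n ∈ Algebra.adjoin k (Set.range fun j => ξ j / ξ i) := by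
  have h1 : ∀ a ∈ Submodule.span k (Set.range ξ),
      a / ξ i ∈ Algebra.adjoin k (Set.range fun j => ξ j / ξ i) := by
    intro a ha
    induction ha using Submodule.span_induction with
    | mem x hx =>
      obtain ⟨j, rfl⟩ := hx
      exact Algebra.subset_adjoin ⟨j, rfl⟩
    | zero => rw [zero_div]; exact zero_mem _
    | add x y _ _ ihx ihy => rw [add_div]; exact add_mem ihx ihy
    | smul c x _ ihx =>
      rw [smul_div_assoc]
      exact Subalgebra.smul_mem _ ihx c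
  refine Submodule.pow_induction_on_left' (Submodule.span k (Set.range ξ))
    (C := fun n x _ => x / ξ i ^ n ∈ Algebra.adjoin k (Set.range fun j => ξ j / ξ i))
    ?_ ?_ ?_ ha
  · intro c
    rw [pow_zero, div_one]
    exact Subalgebra.algebraMap_mem _ c
  · intro x y n hx hy ihx ihy
    rw [add_div]
    exact add_mem ihx ihy
  · intro m hm n x hx ihx
    rw [pow_succ', mul_div_mul_comm]
    exact mul_mem (h1 m hm) ihx

include hκ hξ in
theorem sec_eq (i : I) : secIn κ (Proj.basicOpen (AG k ξ) (ys k ξ i)) =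
    (Algebra.adjoin k (Set.range fun j => ξ j / ξ i) : Set E) := by
  apply Set.Subset.antisymm
  · rintro e ⟨hη, s, rfl⟩
    have hsurj : Function.Surjective (Proj.awayToSection (AG k ξ) (ys k ξ i)).hom :=
      (Proj.basicOpenIsoAway (AG k ξ) (ys k ξ i) (ys_mem k ξ i)
        one_pos).commRingCatIsoToRingEquiv.surjective
    obtain ⟨z, rfl⟩ := hsurj s
    obtain ⟨n, s, hs, rfl⟩ := Away.mk_surjective (AG k ξ) (ys_mem k ξ i) z
    have h : κ ((Proj (AG k ξ)).presheaf.germ (Proj.basicOpen (AG k ξ) (ys k ξ i))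
        (genericPoint (Proj (AG k ξ))) hη
        ((Proj.awayToSection (AG k ξ) (ys k ξ i)).hom
          (Away.mk (AG k ξ) (ys_mem k ξ i) n s hs))) = (s : E[X]).coeff n / ξ i ^ n :=
      av_mk κ hκ hξ i n s hs
    rw [h]
    exact div_mem_adjoin i n _ (s.2 n)
  · intro e he
    have h1 : ∀ e ∈ Algebra.adjoin k (Set.range fun j => ξ j / ξ i), e ∈ (av κ hξ i).range := by
      intro e he
      induction he using Algebra.adjoin_induction with
      | mem x hx =>
        obtain ⟨j, rfl⟩ := hx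
        refine ⟨Away.mk (AG k ξ) (ys_mem k ξ i) 1 (ys k ξ j) (ys_mem k ξ j), ?_⟩
        rw [av_mk κ hκ hξ, pow_one, coe_ys, coeff_monomial, if_pos rfl]
      | algebraMap c =>
        refine ⟨Away.mk (AG k ξ) (ys_mem k ξ i) 0 ((cst k ξ c : AG k ξ 0) : SS k ξ)
          (by rw [zero_smul]; exact (cst k ξ c).2), ?_⟩
        rw [av_mk κ hκ hξ, pow_zero, div_one, coe_cst, coeff_monomial, if_pos rfl]
      | add x y _ _ hx hy => exact add_mem hx hy
      | mul x y _ _ hx hy => exact mul_mem hx hy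
    obtain ⟨z, hz⟩ := h1 e he
    exact ⟨generic_memE k ξ hξ i, (Proj.awayToSection (AG k ξ) (ys k ξ i)).hom z, hz⟩

end

end Pool.Agent.W538.CB
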